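import Pool.Agent.H535Z.Top.All
import Pool.Agent.H535Z.Top.Fin

set_option autoImplicit false

/-!
# A countably infinite group on which every Hausdorff bracket-quasi or bracket-semi topology is
discrete
-/

namespace Pool.Agent.Results.MP_727953_al.OnlyDiscrete

/-- `f` is continuous in each variable when the other one is fixed. -/
def SepCont {G : Type} (t : TopologicalSpace G) (f : G → G → G) : Prop :=
  (∀ y : G, @Continuous G G t t fun x => f x y) ∧ ∀ x : G, @Continuous G G t t fun y => f x y

/-- the maps `q(x,y) = x y⁻¹` and `c(x,y) = x y x⁻¹ y⁻¹` are separately continuous -/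
def BracketQuasi (G : Type) [Group G] (t : TopologicalSpace G) : Prop :=
  SepCont t (fun x y => x * y⁻¹) ∧ SepCont t (fun x y => x * y * x⁻¹ * y⁻¹)

/-- the maps `s(x,y) = x y` and `c(x,y) = x y x⁻¹ y⁻¹` are separately continuous -/
def BracketSemi (G : Type) [Group G] (t : TopologicalSpace G) : Prop :=
  SepCont t (fun x y => x * y) ∧ SepCont t (fun x y => x * y * x⁻¹ * y⁻¹)

theorem result : ∃ (G : Type) (_ : Group G), Countable G ∧ Infinite G ∧
    ∀ t : TopologicalSpace G, @T2Space G t → (BracketQuasi G t ∨ BracketSemi G t) →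
      @DiscreteTopology G t := by
  obtain ⟨G, _, hc, hi, H⟩ := Pool.Agent.H535Z.Top.final
    (Pool.Agent.H535Z.Top.All.adian _ (by norm_num [Nat.odd_iff]) (by norm_num))
  refine ⟨G, inferInstance, hc, hi, fun t ht h => ⟨?_⟩⟩
  rcases h with ⟨h1, h2⟩ | ⟨h1, h2⟩
  · exact H t ht (Or.inl h1) h2.1
  · exact H t ht (Or.inr h1) h2.1

end Pool.Agent.Results.MP_727953_al.OnlyDiscrete
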